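import Mathlib
import Pool.Agent.V5helper57.FibMain

/-!
# Fibonacci and Lucas sums with central binomial coefficients modulo `p ^ 2`

All four congruences of Q1 hold for every prime `p ≠ 2, 5`.

Method. For a sequence `G` with `G (n+2) = G n + G (n+1)` the Chebyshev sums
`∑ (-1)^k (C(p+k,2k) + C(p-1+k,2k)) G (2k)` and, with `p = 2m+1`,
`∑ (-1)^k (C(m+k+1,2k+1) + C(m+k,2k+1)) G (2k+1)` have simple values (the arguments `φ²`, `ψ²`
correspond to tenth roots of unity); their coefficients are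
`-2 p² / (k² c_k) ∏_{j<k} (1 - p²/j²)` and `p c_k / ((2k+1) 16^k) ∏_{j≤k} (1 - p²/(2j-1)²)`.
-/

set_option autoImplicit false

namespace Pool.Agent.Results.MP_0a65fc_nt.FourCongruences

open Finset Pool.Agent.V5helper57.FibSums

/-- The Lucas numbers: `L 0 = 2`, `L 1 = 1`, `L (n+2) = L n + L (n+1)`. -/
def L : ℕ → ℕ
  | 0 => 2
  | 1 => 1
  | (n + 2) => L n + L (n + 1)

/-- The central binomial coefficient `c_k`. -/
def c (k : ℕ) : ℕ := (2 * k).choose k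

/-- The Legendre symbol `ε_p = (p/5)`. -/
def eps (p : ℕ) : ℤ := jacobiSym p 5

/-- The number `q_p = F_{p - ε} / p`. -/
def q (p : ℕ) : ℚ := (Nat.fib ((p : ℤ) - eps p).toNat : ℚ) / p

/-- `a ≡ b (mod p ^ 2)` for rational numbers: `a - b = p ^ 2 r` for a rational number `r` whose
denominator is prime to `p`. -/
def Congr (p : ℕ) (a b : ℚ) : Prop := ∃ r : ℚ, Nat.Coprime r.den p ∧ a - b = (p : ℚ) ^ 2 * r

theorem cassini (n : ℕ) : ((Nat.fib (n + 1) : ℚ)) ^ 2 - Nat.fib (n + 1) * Nat.fib n - (Nat.fib n : ℚ) ^ 2 = (-1) ^ n := by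
  induction n with
  | zero => simp
  | succ n ih =>
    have h : (Nat.fib (n + 1 + 1) : ℚ) = Nat.fib n + Nat.fib (n + 1) := by
      exact_mod_cast Nat.fib_add_two
    rw [h, pow_succ]
    linear_combination (-1) * ih

theorem L_eq (n : ℕ) : (L n : ℚ) = 2 * Nat.fib (n + 1) - Nat.fib n ∧
    (L (n + 1) : ℚ) = 2 * Nat.fib (n + 2) - Nat.fib (n + 1) := by
  induction n with
  | zero => norm_num [L]
  | succ n ih =>
    refine ⟨ih.2, ?_⟩
    have h1 : (L (n + 1 + 1) : ℚ) = L n + L (n + 1) := by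
      have : L (n + 1 + 1) = L n + L (n + 1) := by rw [L]
      exact_mod_cast this
    have h2 : (Nat.fib (n + 1 + 2) : ℚ) = Nat.fib (n + 1) + Nat.fib (n + 1 + 1) := by
      exact_mod_cast Nat.fib_add_two
    have h3 : (Nat.fib (n + 2) : ℚ) = Nat.fib n + Nat.fib (n + 1) := by
      exact_mod_cast Nat.fib_add_two
    rw [h1, ih.1, ih.2, h2, show n + 1 + 1 = n + 2 by ring, h3]
    ring

theorem fib_double (n : ℕ) : (Nat.fib (2 * n) : ℚ) = Nat.fib n * L n := by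
  rw [(L_eq n).1, Nat.fib_two_mul]
  have : Nat.fib n ≤ 2 * Nat.fib (n + 1) := by
    have := Nat.fib_le_fib_succ (n := n)
    omega
  push_cast [this]
  ring

theorem L_double (m : ℕ) : (L (2 * (2 * m + 1)) : ℚ) = (L (2 * m + 1) : ℚ) ^ 2 + 2 := by
  have hc := cassini (2 * m + 1)
  rw [Odd.neg_one_pow ⟨m, rfl⟩] at hc
  rw [(L_eq _).1, (L_eq _).1, fib_double, (L_eq _).1, Nat.fib_two_mul_add_one]
  push_cast
  linear_combination (-2) * hc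

theorem L_sq (m : ℕ) : (L (2 * m + 1) : ℚ) ^ 2 = 5 * (Nat.fib (2 * m + 1) : ℚ) ^ 2 - 4 := by
  have hc := cassini (2 * m + 1)
  rw [Odd.neg_one_pow ⟨m, rfl⟩] at hc
  rw [(L_eq _).1]
  linear_combination 4 * hc

theorem eps_of (m : ℕ) : (m % 5 = 0 ∨ m % 5 = 4 → eps (2 * m + 1) = 1) ∧
    (m % 5 = 1 ∨ m % 5 = 3 → eps (2 * m + 1) = -1) := by
  unfold eps
  rw [jacobiSym.mod_left]
  have h1 : (((2 * m + 1 : ℕ) : ℤ)) % ((5 : ℕ) : ℤ) = (((2 * (m % 5) + 1) % 5 : ℕ) : ℤ) := by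
    push_cast; omega
  rw [h1]
  constructor
  · rintro (h | h) <;> rw [h] <;> norm_num
  · rintro (h | h) <;> rw [h] <;> norm_num

/-- The algebra of the final step. `x = F_{p-ε} = p q`, `y = L_{p-ε}`. -/
theorem final (p : ℕ) (hp2 : Nat.Coprime 2 p) (hp0 : (p : ℚ) ≠ 0) (f l ε δ Q A B : ℚ)
    (hε : ε = 1 ∨ ε = -1) (hδ : δ = 1 ∨ δ = -1) (hl : l ^ 2 = 5 * f ^ 2 - 4)
    (hA : PI p A) (hB : PI p B) (hfA : δ * ε - δ * f = p * A) (hlB : δ - δ * l = p * B)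
    (hQ : 2 * (p * Q) = l - ε * f) :
    ∃ z : ℚ, PI p z ∧ PI p Q ∧ 5 * f - ε * l = 2 * (2 * ε + p ^ 2 * z) := by
  have hε2 : ε ^ 2 = 1 := by rcases hε with h | h <;> rw [h] <;> norm_num
  have hδ2 : δ ^ 2 = 1 := by rcases hδ with h | h <;> rw [h] <;> norm_num
  have hPε : PI p ε := by
    rcases hε with h | h <;> rw [h]
    · exact_mod_cast PI.int (p := p) 1
    · exact_mod_cast PI.int (p := p) (-1)
  have hPδ : PI p δ := by
    rcases hδ with h | h <;> rw [h]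
    · exact_mod_cast PI.int (p := p) 1
    · exact_mod_cast PI.int (p := p) (-1)
  have h2 : PI p (((2 : ℕ) : ℚ)⁻¹) := PI.inv_nat hp2
  have h4 : PI p (((4 : ℕ) : ℚ)⁻¹) := PI.inv_nat (Nat.Coprime.pow_left 2 hp2)
  have h5 : PI p 5 := by exact_mod_cast PI.int (p := p) 5
  have hf : f = ε - δ * p * A := by linear_combination (-δ) * hfA + (ε - f) * hδ2
  have hl' : l = 1 - δ * p * B := by linear_combination (-δ) * hlB + (1 - l) * hδ2
  -- Q = (ε δ A - δ B) / 2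
  have hQ' : Q = δ * (ε * A - B) * ((2 : ℕ) : ℚ)⁻¹ := by
    apply mul_left_cancel₀ hp0
    push_cast
    rw [hf, hl'] at hQ
    linear_combination hQ / 2 - (1 / 2) * hε2
  have hPQ : PI p Q := by
    rw [hQ']; exact (hPδ.mul ((hPε.mul hA).sub hB)).mul h2
  -- z1
  obtain ⟨Z, hZ⟩ : ∃ Z, Z = δ * (ε * B - 5 * A) * ((2 : ℕ) : ℚ)⁻¹ := ⟨_, rfl⟩
  have hPZ : PI p Z := by rw [hZ]; exact (hPδ.mul ((hPε.mul hB).sub (h5.mul hA))).mul h2
  have hZ2 : 5 * f - ε * l = 2 * (2 * ε + p * Z) := by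
    rw [hf, hl', hZ]; push_cast; ring
  -- y^2 = 5 x^2 + 4
  have hy : (2 * ε + p * Z) ^ 2 = 5 * (p * Q) ^ 2 + 4 := by
    have e1 : (5 * f - ε * l) ^ 2 = 5 * (l - ε * f) ^ 2 + 16 := by
      linear_combination (ε ^ 2 - 5) * hl - (f ^ 2 * 0 + 4) * hε2
    rw [hZ2, ← hQ] at e1
    linear_combination e1 / 4
  have hZ3 : 4 * ε * Z = p * (5 * Q ^ 2 - Z ^ 2) := by
    apply mul_left_cancel₀ hp0
    linear_combination hy - 4 * hε2
  refine ⟨ε * (5 * Q ^ 2 - Z ^ 2) * ((4 : ℕ) : ℚ)⁻¹, ?_, hPQ, ?_⟩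
  · exact (hPε.mul ((h5.mul (hPQ.pow 2)).sub (hPZ.pow 2))).mul h4
  · rw [hZ2]
    push_cast
    have : Z = ε * (p * (5 * Q ^ 2 - Z ^ 2)) / 4 := by
      rw [← hZ3]; linear_combination (-Z) * hε2
    linear_combination (2 * p) * this

/-- **Q1.** For every prime `p ≠ 2, 5` all four congruences hold. -/
theorem result (p : ℕ) (hp : p.Prime) (h2 : p ≠ 2) (h5 : p ≠ 5) :
    Congr p (p * ∑ k ∈ Ico 1 p, (Nat.fib (2 * k) : ℚ) / ((k : ℚ) ^ 2 * c k))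
      (-(eps p) * (3 * q p / 2 + 5 * p * q p ^ 2 / 4)) ∧
    Congr p (p * ∑ k ∈ Ico 1 p, (L (2 * k) : ℚ) / ((k : ℚ) ^ 2 * c k))
      (-(5 * q p / 2) - 15 * p * q p ^ 2 / 4) ∧
    Congr p (∑ k ∈ range ((p - 3) / 2 + 1), (c k : ℚ) * Nat.fib (2 * k + 1) / ((2 * (k : ℚ) + 1) * 16 ^ k))
      ((-1) ^ ((p + 1) / 2) * eps p * (q p / 2 + 5 * p * q p ^ 2 / 8)) ∧
    Congr p (∑ k ∈ range ((p - 3) / 2 + 1), (c k : ℚ) * L (2 * k + 1) / ((2 * (k : ℚ) + 1) * 16 ^ k))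
      ((-1) ^ ((p + 1) / 2) * (5 * q p / 2 + 5 * p * q p ^ 2 / 8)) := by
  have hodd : p % 2 = 1 := (hp.eq_two_or_odd).resolve_left h2
  obtain ⟨m, rfl⟩ : ∃ m, p = 2 * m + 1 := ⟨p / 2, by omega⟩
  have hm : 1 ≤ m := by
    have := hp.two_le
    omega
  have hm5 : m % 5 ≠ 2 := by
    intro h
    have : 5 ∣ 2 * m + 1 := by omega
    rcases (Nat.dvd_prime hp).1 this with h | h
    · omega
    · exact h5 h.symm
  have hp0 : ((2 * m + 1 : ℕ) : ℚ) ≠ 0 := by positivity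
  have hco2 : Nat.Coprime 2 (2 * m + 1) := (Nat.coprime_primes Nat.prime_two hp).2 (Ne.symm h2)
  -- the two sequences
  have hF : ∀ n, (fun n : ℕ => (Nat.fib n : ℚ)) (n + 2) = (fun n : ℕ => (Nat.fib n : ℚ)) n + (fun n : ℕ => (Nat.fib n : ℚ)) (n + 1) := by
    intro n; simp only; exact_mod_cast Nat.fib_add_two
  have hL : ∀ n, (fun n : ℕ => (L n : ℚ)) (n + 2) = (fun n : ℕ => (L n : ℚ)) n + (fun n : ℕ => (L n : ℚ)) (n + 1) := by
    intro n; simp only; exact_mod_cast (by rw [L] : L (n + 2) = L n + L (n + 1))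
  have hPF : ∀ n, PI (2 * m + 1) ((fun n : ℕ => (Nat.fib n : ℚ)) n) := fun n => PI.nat _
  have hPL : ∀ n, PI (2 * m + 1) ((fun n : ℕ => (L n : ℚ)) n) := fun n => PI.nat _
  obtain ⟨e1, he1, E1⟩ := first_sum _ hp hPF
  obtain ⟨e2, he2, E2⟩ := first_sum _ hp hPL
  obtain ⟨⟨e3, he3, E3⟩, ⟨A, hA, EA⟩⟩ := second_sum _ hm hp hPF
  obtain ⟨⟨e4, he4, E4⟩, ⟨B, hB, EB⟩⟩ := second_sum _ hm hp hPL
  have hrange : (2 * m + 1 - 3) / 2 + 1 = m := by omega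
  have hpar : (2 * m + 1 + 1) / 2 = m + 1 := by omega
  have hcc : ∀ k, (c k : ℚ) = (k.centralBinom : ℚ) := by
    intro k; unfold c; rw [Nat.centralBinom_eq_two_mul_choose]
  simp only [hcc, hrange, hpar]
  rw [E1, E2, E3, E4]
  obtain ⟨δ, hδ⟩ : ∃ δ : ℚ, δ = (-1) ^ m := ⟨_, rfl⟩
  have hδ' : δ = 1 ∨ δ = -1 := by rw [hδ]; exact neg_one_pow_eq_or ℚ m
  have hδ2 : δ ^ 2 = 1 := by rcases hδ' with h | h <;> rw [h] <;> norm_num
  have hL0 : (L 0 : ℚ) = 2 := by norm_num [L]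
  have hL1 : (L (0 + 1) : ℚ) = 1 := by norm_num [L]
  have hL1' : (L 1 : ℚ) = 1 := by norm_num [L]
  have hL2 : (L (1 + 1) : ℚ) = 3 := by norm_num [L]
  have hF0 : (Nat.fib 0 : ℚ) = 0 := by norm_num
  have hF1 : (Nat.fib (0 + 1) : ℚ) = 1 := by norm_num
  have hF1' : (Nat.fib 1 : ℚ) = 1 := by norm_num
  have hF2 : (Nat.fib (1 + 1) : ℚ) = 1 := by norm_num
  -- values of the Chebyshev sums
  have vals : ∃ ε : ℚ, (ε = 1 ∨ ε = -1) ∧ (eps (2 * m + 1) : ℚ) = ε ∧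
      (s (fun n => (Nat.fib n : ℚ)) (2 * m + 1) 0 + s (fun n => (Nat.fib n : ℚ)) (2 * m) 0 = -ε) ∧
      (s (fun n => (L n : ℚ)) (2 * m + 1) 0 + s (fun n => (L n : ℚ)) (2 * m) 0 = 1) ∧
      (u (fun n => (Nat.fib n : ℚ)) m 1 + u (fun n => (Nat.fib n : ℚ)) (m - 1) 1 = δ * ε) ∧
      (u (fun n => (L n : ℚ)) m 1 + u (fun n => (L n : ℚ)) (m - 1) 1 = δ) ∧
      2 * ((2 * m + 1 : ℕ) * q (2 * m + 1)) = (L (2 * m + 1) : ℚ) - ε * Nat.fib (2 * m + 1) := by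
    have hc : (m % 5 = 0 ∨ m % 5 = 4) ∨ (m % 5 = 1 ∨ m % 5 = 3) := by omega
    rcases hc with hc | hc
    · refine ⟨1, Or.inl rfl, ?_, ?_, ?_, ?_, ?_, ?_⟩
      · rw [(eps_of m).1 hc]; norm_num
      · rw [(cheb1 hF m 0).1 hc, hF1, hF0]; norm_num
      · rw [(cheb1 hL m 0).1 hc, hL1, hL0]; norm_num
      · rw [(cheb2 hF m hm 1).1 hc, hF1', ← hδ]
      · rw [(cheb2 hL m hm 1).1 hc, hL1', ← hδ]; ring
      · unfold q
        rw [(eps_of m).1 hc]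
        have h1 : (((2 * m + 1 : ℕ) : ℤ) - 1).toNat = 2 * m := by omega
        have h3 : (Nat.fib (2 * m + 1 + 1) : ℚ) = Nat.fib (2 * m) + Nat.fib (2 * m + 1) := by
          exact_mod_cast Nat.fib_add_two
        rw [h1, (L_eq _).1, mul_div_cancel₀ _ hp0, h3]
        ring
    · refine ⟨-1, Or.inr rfl, ?_, ?_, ?_, ?_, ?_, ?_⟩
      · rw [(eps_of m).2 hc]; norm_num
      · rw [(cheb1 hF m 0).2 hc, hF1]; norm_num
      · rw [(cheb1 hL m 0).2 hc, hL1]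
      · rw [(cheb2 hF m hm 1).2 hc, hF1', hF2, ← hδ]; norm_num
      · rw [(cheb2 hL m hm 1).2 hc, hL1', hL2, ← hδ]; norm_num
      · unfold q
        rw [(eps_of m).2 hc]
        have h1 : (((2 * m + 1 : ℕ) : ℤ) - -1).toNat = 2 * m + 1 + 1 := by omega
        rw [h1, (L_eq _).1, mul_div_cancel₀ _ hp0]
        ring
  obtain ⟨ε, hε, hεe, v1, v2, v3, v4, hQ⟩ := vals
  have hε2 : ε ^ 2 = 1 := by rcases hε with h | h <;> rw [h] <;> norm_num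
  have hdf := fib_double (2 * m + 1)
  have hdl := L_double m
  have hsq := L_sq m
  rw [v3, ← hδ] at EA
  rw [v4, ← hδ] at EB
  have hpow : (-1 : ℚ) ^ (m + 1) = -δ := by rw [hδ, pow_succ]; ring
  rw [hεe, v1, v2, v3, v4, hF0, hL0, hpow, ← hδ]
  rw [hdf, hdl]
  obtain ⟨f, hf⟩ : ∃ f : ℚ, f = (Nat.fib (2 * m + 1) : ℚ) := ⟨_, rfl⟩
  obtain ⟨l, hl⟩ : ∃ l : ℚ, l = (L (2 * m + 1) : ℚ) := ⟨_, rfl⟩
  obtain ⟨Q, hQQ⟩ : ∃ Q : ℚ, Q = q (2 * m + 1) := ⟨_, rfl⟩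
  obtain ⟨P, hP⟩ : ∃ P : ℕ, P = 2 * m + 1 := ⟨_, rfl⟩
  rw [← hf, ← hl] at hQ hsq
  rw [← hf] at EA
  rw [← hl] at EB
  rw [← hQQ] at hQ
  rw [← hf, ← hl, ← hQQ, ← hP]
  rw [← hP] at hp0 hco2 hA hB EA EB hQ he1 he2 he3 he4
  obtain ⟨z, hz, hPQ, hy⟩ := final P hco2 hp0 f l ε δ Q A B hε hδ' hsq hA hB EA EB hQ
  have hPε : PI P ε := by
    rcases hε with h | h <;> rw [h]
    · exact_mod_cast PI.int (p := P) 1
    · exact_mod_cast PI.int (p := P) (-1)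
  have hPδ : PI P δ := by
    rcases hδ' with h | h <;> rw [h]
    · exact_mod_cast PI.int (p := P) 1
    · exact_mod_cast PI.int (p := P) (-1)
  have h4' : PI P (((4 : ℕ) : ℚ)⁻¹) := PI.inv_nat (Nat.Coprime.pow_left 2 hco2)
  have h8' : PI P (((8 : ℕ) : ℚ)⁻¹) := PI.inv_nat (Nat.Coprime.pow_left 3 hco2)
  have h3' : PI P 3 := by exact_mod_cast PI.int (p := P) 3
  have h5' : PI P 5 := by exact_mod_cast PI.int (p := P) 5
  -- f and l in terms of x = p Q and y = 2 ε + p^2 z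
  have hfx : f = (ε * (P * Q) + (2 * ε + P ^ 2 * z)) / 2 := by
    linear_combination (-ε / 4) * hQ + (1 / 4) * hy + (f / 4) * hε2
  have hlx : l = (5 * (P * Q) + 2 + ε * (P ^ 2 * z)) / 2 := by
    linear_combination (-1) * hQ + ε * hfx + (1 + P * Q / 2) * hε2
  have hyy : 4 * ε * z + P ^ 2 * z ^ 2 = 5 * Q ^ 2 := by
    have hP2 : ((P : ℚ) ^ 2) ≠ 0 := pow_ne_zero 2 hp0
    apply mul_left_cancel₀ hP2
    rw [hfx, hlx] at hsq
    rcases hε with h | h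
    · rw [h] at hsq ⊢
      linear_combination (-1) * hsq
    · rw [h] at hsq ⊢
      linear_combination (-1) * hsq
  refine ⟨⟨e1 - 3 * Q * z * ((4 : ℕ) : ℚ)⁻¹, he1.sub (((h3'.mul hPQ).mul hz).mul h4'), ?_⟩,
    ⟨e2 - 5 * ε * Q * z * ((4 : ℕ) : ℚ)⁻¹, he2.sub ((((h5'.mul hPε).mul hPQ).mul hz).mul h4'), ?_⟩,
    ⟨e3 + δ * ε * P * z ^ 2 * ((8 : ℕ) : ℚ)⁻¹,
      he3.add ((((hPδ.mul hPε).mul (PI.nat P)).mul (hz.pow 2)).mul h8'), ?_⟩,
    ⟨e4 + δ * P * z ^ 2 * ((8 : ℕ) : ℚ)⁻¹,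
      he4.add (((hPδ.mul (PI.nat P)).mul (hz.pow 2)).mul h8'), ?_⟩⟩
  · push_cast
    rw [hfx, hlx]
    rcases hε with h | h
    · rw [h] at hyy ⊢
      field_simp
      linear_combination (-4 * P ^ 2) * hyy
    · rw [h] at hyy ⊢
      field_simp
      linear_combination (4 * P ^ 2) * hyy
  · push_cast
    rw [hlx]
    rcases hε with h | h <;> rw [h] at hyy ⊢ <;> field_simp <;> linear_combination (-4 * P ^ 2) * hyy
  · push_cast
    rw [hfx]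
    rcases hε with h | h
    · rw [h] at hyy ⊢
      field_simp
      linear_combination (-2 * δ * P ^ 2) * hyy
    · rw [h] at hyy ⊢
      field_simp
      linear_combination (2 * δ * P ^ 2) * hyy
  · push_cast
    rw [hlx]
    rcases hε with h | h <;> rw [h] at hyy ⊢ <;> field_simp <;> linear_combination (-2 * δ * P ^ 2) * hyy

end Pool.Agent.Results.MP_0a65fc_nt.FourCongruences
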